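import Pool.Agent.V8H78.EX.Seq
import Pool.Agent.V8H78.EX.ZC

/-!
# The local-global complex for zero-cycles modulo 2 on the twists of cyclic coverings by explicit integers:
# factorials, binomial coefficients, Catalan numbers, least common multiples, …

Let `b y ^ 2 = ∏ k, G k (z, w)` be a hyperelliptic curve `D` over `ℚ`, where the `G k` are the
homogenisations of polynomials `g k` with integral coefficients, of even degrees, pairwise coprime, and
let `h` be a nonconstant polynomial with integral coefficients, coprime to the `g k`, `H` its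
homogenisation (`Admissible`). For an integer `a` and an even `m ∣ deg h` let

  `C a : b y ^ 2 = ∏ k, G k (z, w)`, `a x ^ m = H (z, w)`,

a cyclic covering of `D`; for different `a` these coverings are twists of each other. The integer `a` has
the property `Good` (of the starting result `RandomOrbits`) if for all even `m ∣ deg h`, `m > 0`, and every
adelic zero-cycle `(z_v)` on `C a`, of degrees congruent to `d` modulo 2, which is orthogonal to the
quaternion algebras `(G k, e)`, `e` a nonzero integer:

* there are squarefree integers `n k` with `G k (z_v) = n k` in `ℚ_v* / ℚ_v*²` for all `k` and all `v`,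
  and the family `n` is persistent: for every automorphism `σ` of the field of algebraic numbers there
  is a `σ`-stable set of zeros `β` of `h`, of cardinality congruent to `d` modulo 2, with
  `∏ β, g k (β) = n k * y k ^ 2`, `σ (y k) = y k`;
* if the zeros of `h` are one or two rational numbers `α₁`, `α₂`, and `d` is odd or `b ∏ g k (α₁)` is a
  square, there is a zero-cycle `z` of degree `d` over `ℚ` with `G k (z) = G k (z_v)` in
  `ℚ_v* / ℚ_v*²` for all `k` and all `v`: the complex
  `CH₀(C a) / 2 → ∏ v, CH₀(C a over ℚ_v) / 2 → Hom(Br, ℚ/ℤ)` is exact up to the kernels of the `(G k)`.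

The earlier results are about 100% of the twists of a family (squarefree integers, random orbits,
sequences with equidistribution, almost all multipliers), with exceptions that are not known. Here the
twists are explicit and there are NO exceptions:

**Theorem.** Let `(b, g, h)` be admissible.

1. There is `c > 0` such that for all `κ > 1` and all sufficiently large `x`: ALL integers `a ≠ 0` which are
   divisible to an odd power by all but at most the proportion `c` of the primes `p` in `(x, κ x]` have
   the property `Good`.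
2. For all `u ≠ 0`, `ε > 0` and all sufficiently large `n`: all integers `a = u n! / v`, where the prime
   divisors of `v` are at most `(1 - ε) n`, have the property `Good`. (For example multinomial
   coefficients `n! / (k_1! ⋯ k_s!)` with all `k_j ≤ (1 - ε) n`; products `(n - m + 1) ⋯ (n - 1) n` with
   `m ≥ ε n`; degrees of irreducible representations of the symmetric group `S_n` for the Young
   diagrams whose hooks have lengths at most `(1 - ε) n`.)
3. In particular, for all `u ≠ 0`, `ε > 0` and all sufficiently large `n` the twists by `u n!`, by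
   `u C(n, k)` for ALL `k` with `ε n ≤ k ≤ (1 - ε) n`, by `u` times the `n`-th Catalan number, by
   `u lcm(1, …, n)`, by `u ∏_{p ≤ n} p`, by `u ∏_{j ≤ n} j ^ j` and by `u ∏_{j ≤ n} j!` have the property
   `Good`.

The integers `a` of 1. are as sparse as one likes and are not squarefree in general; only the parity of
the multiplicities of the primes in one window matters.

Proof. For each class which is not persistent, from a finite list, there are by the local analysis of
helper925 a Galois extension of `ℚ` and a conjugacy class such that no zero-cycle on `C s` over `ℚ_p` has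
this class if `p` has a Frobenius element in the class and divides `s` exactly once. By Chebotarev's
theorem with the asymptotic formula (starting library, `W401.Cheb`) and the prime number theorem these
primes have a positive proportion in every window `(x, κ x]`, `x → ∞`. If `a = s t ^ 2` with `s` squarefree,
the zero-cycles on `C a` are mapped to the double covering `s x ^ 2 = H (z, w)` by `x ↦ t x ^ (m / 2)`, and
the values of the `G k` are the same.
-/

set_option autoImplicit false

namespace Pool.Agent.Results.MP_bd895b_nt.ExplicitTwists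

open Polynomial
open Pool.Agent.Results.MP_bd895b_nt.LocalGlobalComplexOfTwists (Admissible)
open Pool.Agent.Results.MP_bd895b_nt.RandomOrbits (Good)
open scoped Nat

/-- The primes `p` with `x < p ≤ κ x`. -/
def Window (κ : ℝ) (x : ℕ) : Set ℕ := {p | p.Prime ∧ x < p ∧ (p : ℝ) ≤ κ * x}

/-- The primes `p` with `x < p ≤ κ x` which divide `a` to an even power (or do not divide `a`). -/
def EvenPrimes (a : ℤ) (κ : ℝ) (x : ℕ) : Set ℕ := {p ∈ Window κ x | ¬ Odd (padicValInt p a)}

lemma rule {r : ℕ} {b : ℤ} {g : Fin r → ℤ[X]} {h : ℤ[X]} (hA : Admissible b g h) :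
    Pool.Agent.V8H78.EX.Rule (Good b g h) := Pool.Agent.V8H78.EX.good_odd hA

theorem result {r : ℕ} {b : ℤ} {g : Fin r → ℤ[X]} {h : ℤ[X]} (hA : Admissible b g h) :
    (∃ c : ℝ, 0 < c ∧ ∀ κ : ℝ, 1 < κ → ∃ x₀ : ℕ, ∀ x : ℕ, x₀ ≤ x → ∀ a : ℤ, a ≠ 0 →
      ((EvenPrimes a κ x).ncard : ℝ) ≤ c * ((Window κ x).ncard : ℝ) → Good b g h a) ∧
    ∀ (u : ℤ) (ε : ℝ), u ≠ 0 → 0 < ε → ∃ n₀ : ℕ, ∀ n : ℕ, n₀ ≤ n →
      (∀ a v : ℤ, v * a = u * (n ! : ℕ) →
        (∀ p : ℕ, p.Prime → (p : ℤ) ∣ v → (p : ℝ) ≤ (1 - ε) * n) → Good b g h a) ∧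
      Good b g h (u * (n ! : ℕ)) ∧
      (∀ k : ℕ, ε * n ≤ k → (k : ℝ) ≤ (1 - ε) * n → Good b g h (u * (n.choose k : ℕ))) ∧
      Good b g h (u * (catalan n : ℕ)) ∧
      Good b g h (u * (((Finset.Icc 1 n).lcm id : ℕ) : ℤ)) ∧
      Good b g h (u * (primorial n : ℕ)) ∧
      Good b g h (u * ((∏ j ∈ Finset.Icc 1 n, j ^ j : ℕ) : ℤ)) ∧
      Good b g h (u * (n.superFactorial : ℕ)) := by
  have hR := rule hA
  refine ⟨Pool.Agent.V8H78.EX.crit hR, fun u ε hu hε => ?_⟩
  obtain ⟨n1, h1⟩ := Pool.Agent.V8H78.EX.fact_quot hR hu hε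
  obtain ⟨n2, h2⟩ := Pool.Agent.V8H78.EX.fact_quot hR hu (show (0 : ℝ) < 1 / 4 by norm_num)
  obtain ⟨n3, h3⟩ := Pool.Agent.V8H78.EX.nat_seq hR hu (show (0 : ℝ) < 1 / 2 by norm_num)
    (show (1 / 2 : ℝ) < 1 by norm_num) (fun n => (Finset.Icc 1 n).lcm id)
    (fun n => ne_zero_of_dvd_ne_zero (Nat.factorial_ne_zero n) (Finset.lcm_dvd fun j hj => by
      rw [Finset.mem_Icc] at hj
      exact Nat.dvd_factorial hj.1 hj.2))
    (fun n p hp _ p1 p2 => by
      rw [Pool.Agent.V8H78.EX.val_lcm hp (by rw [one_mul] at p2; exact_mod_cast p2) (by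
        have : (n : ℝ) < 2 * p := by linarith
        exact_mod_cast this)]
      exact odd_one)
  obtain ⟨n4, h4⟩ := Pool.Agent.V8H78.EX.nat_seq hR hu (show (0 : ℝ) < 1 / 2 by norm_num)
    (show (1 / 2 : ℝ) < 1 by norm_num) (fun n => primorial n) (fun n => (primorial_pos n).ne')
    (fun n p hp _ p1 p2 => by
      rw [Pool.Agent.V8H78.EX.val_primorial hp (by rw [one_mul] at p2; exact_mod_cast p2)]
      exact odd_one)
  obtain ⟨n5, h5⟩ := Pool.Agent.V8H78.EX.nat_seq hR hu (show (0 : ℝ) < 1 / 2 by norm_num)
    (show (1 / 2 : ℝ) < 1 by norm_num) (fun n => ∏ j ∈ Finset.Icc 1 n, j ^ j)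
    (fun n => Finset.prod_ne_zero_iff.2 fun j hj => pow_ne_zero _ (by
      rw [Finset.mem_Icc] at hj
      omega))
    (fun n p hp p3 p1 p2 => by
      rw [Pool.Agent.V8H78.EX.val_hyper hp (by rw [one_mul] at p2; exact_mod_cast p2) (by
        have : (n : ℝ) < 2 * p := by linarith
        exact_mod_cast this)]
      exact hp.odd_of_ne_two (by omega))
  obtain ⟨n6, h6⟩ := Pool.Agent.V8H78.EX.nat_seq hR hu (show (0 : ℝ) < 1 / 3 by norm_num)
    (show (1 / 3 : ℝ) < 1 / 2 by norm_num) (fun n => n.superFactorial)
    (fun n => by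
      rw [← Nat.prod_range_factorial_succ]
      exact Finset.prod_ne_zero_iff.2 fun j _ => Nat.factorial_ne_zero _)
    (fun n p hp p3 p1 p2 => by
      refine Pool.Agent.V8H78.EX.val_super hp p3 ?_ ?_
      · have : (2 : ℝ) * p ≤ n := by linarith
        exact_mod_cast this
      · have : (n : ℝ) < 3 * p := by linarith
        exact_mod_cast this)
  refine ⟨max (max n1 n2) (max (max n3 n4) (max (max n5 n6) 2)), fun n hn => ?_⟩
  have hn1 : n1 ≤ n := le_trans (by simp) hn
  have hn2 : n2 ≤ n := le_trans (by simp) hn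
  have hn3 : n3 ≤ n := le_trans (by simp) hn
  have hn4 : n4 ≤ n := le_trans (by simp) hn
  have hn5 : n5 ≤ n := le_trans (by simp) hn
  have hn6 : n6 ≤ n := le_trans (by simp) hn
  have hn7 : 2 ≤ n := le_trans (by simp) hn
  refine ⟨h1 n hn1, ?_, ?_, ?_, h3 n hn3, h4 n hn4, h5 n hn5, h6 n hn6⟩
  · refine h2 n hn2 (u * (n ! : ℕ)) 1 (one_mul _) fun p hp hd => ?_
    have h7 : p ∣ 1 := by exact_mod_cast hd
    exact absurd (Nat.dvd_one.1 h7) hp.one_lt.ne'
  · intro k hk1 hk2
    have hkn : k ≤ n := by
      have h7 : (k : ℝ) ≤ n := hk2.trans (by nlinarith [Nat.cast_nonneg (α := ℝ) n])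
      exact_mod_cast h7
    refine h1 n hn1 _ ((k ! * (n - k)! : ℕ) : ℤ) ?_ fun p hp hd => ?_
    · have h7 := Nat.choose_mul_factorial_mul_factorial hkn
      have h8 : ((n.choose k : ℕ) : ℤ) * ((k ! : ℕ) : ℤ) * (((n - k)! : ℕ) : ℤ) = ((n ! : ℕ) : ℤ) := by
        exact_mod_cast h7
      rw [← h8]
      push_cast
      ring
    · have h7 : p ∣ k ! * (n - k)! := by exact_mod_cast hd
      rcases (hp.dvd_mul).1 h7 with h8 | h8
      · have h9 : (p : ℝ) ≤ k := by exact_mod_cast (hp.dvd_factorial).1 h8
        exact h9.trans hk2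
      · have h9 : (p : ℝ) ≤ (n - k : ℕ) := by exact_mod_cast (hp.dvd_factorial).1 h8
        rw [Nat.cast_sub hkn] at h9
        linarith
  · refine h2 (2 * n) (by omega) _ ((n ! * (n + 1)! : ℕ) : ℤ) ?_ fun p hp hd => ?_
    · have e1 := succ_mul_catalan_eq_centralBinom n
      have e2 := Nat.choose_mul_factorial_mul_factorial (show n ≤ 2 * n by omega)
      rw [← Nat.centralBinom_eq_two_mul_choose, ← e1, show 2 * n - n = n by omega] at e2
      have e3 : (((n + 1) * catalan n * n ! * n ! : ℕ) : ℤ) = (((2 * n)! : ℕ) : ℤ) := by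
        exact_mod_cast e2
      rw [← e3, Nat.factorial_succ]
      push_cast
      ring
    · have h7 : p ∣ n ! * (n + 1)! := by exact_mod_cast hd
      have h8 : p ≤ n + 1 := by
        rcases (hp.dvd_mul).1 h7 with h8 | h8
        · exact ((hp.dvd_factorial).1 h8).trans (by omega)
        · exact (hp.dvd_factorial).1 h8
      have h9 : (p : ℝ) ≤ n + 1 := by exact_mod_cast h8
      have h10 : (2 : ℝ) ≤ n := by exact_mod_cast hn7
      push_cast
      linarith

end Pool.Agent.Results.MP_bd895b_nt.ExplicitTwists
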