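import Pool.Agent.N18.KM.Tw
import Pool.Agent.N24.KM.All
import Pool.Agent.N676.OR.Cnt
import Pool.Agent.Results.MP_bd895b_nt.RandomOrbits

/-!
# The local-global complex for zero-cycles modulo 2 on twists of cyclic coverings, for twists along
# arbitrary sequences and almost all multipliers

Let `b y ^ 2 = ∏ k, G k (z, w)` be a hyperelliptic curve `D` over `ℚ`, where the `G k` are the
homogenisations of polynomials `g k` with integral coefficients, of even degrees, pairwise coprime, and
let `h` be a nonconstant polynomial with integral coefficients, coprime to the `g k`, `H` its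
homogenisation (`Admissible`). For an integer `a` and an even `m ∣ deg h` let

  `C a : b y ^ 2 = ∏ k, G k (z, w)`, `a x ^ m = H (z, w)`,

a cyclic covering of `D`; for different `a` these coverings are twists of each other. The genus is
arbitrary, and nothing is known about the Tate-Shafarevich groups of the Jacobians.

The starting results (whose definitions are used) treat 100% of the squarefree integers `|a| ≤ X`, for
one family `(b, g, h)` (`LocalGlobalComplexOfTwists`), and the values of a linear form along a random
orbit (`RandomOrbits`). The integer `a` has the property `GoodTwist` (the property `Good` of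
`RandomOrbits`) if for all even `m ∣ deg h`, `m > 0`, and every adelic zero-cycle `(z_v)` on `C a`, of
degrees congruent to `d` modulo 2, which is orthogonal to the quaternion algebras `(G k, e)`, `e` a
nonzero integer:

* there are squarefree integers `n k` with `G k (z_v) = n k` in `ℚ_v* / ℚ_v*²` for all `k` and all `v`,
  and the family `n` is persistent: for every automorphism `σ` of the field of algebraic numbers there
  is a `σ`-stable set of zeros `β` of `h`, of cardinality congruent to `d` modulo 2, with
  `∏ β, g k (β) = n k * y k ^ 2`, `σ (y k) = y k`;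
* if the zeros of `h` are one or two rational numbers `α₁`, `α₂`, and `d` is odd or `b ∏ g k (α₁)` is a
  square, there is a zero-cycle `z` of degree `d` over `ℚ` with `G k (z) = G k (z_v)` in
  `ℚ_v* / ℚ_v*²` for all `k` and all `v`. In particular (`d = 1`) the complex

    `CH₀(C a) / 2 → ∏ v, CH₀(C a over ℚ_v) / 2 → Hom(Br, ℚ/ℤ)`

  is exact up to the kernels of the `(G k)`, also for the classes of odd degree.

**Theorem.** A sequence `c_0, c_1, …` of vectors in `ℤ ^ ι` (`ι` a finite set) is called good
(`GoodSequence`) if there is ONE set `E` of indices of natural density zero, such that for ALL families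
`(b, g, h)` and ALL linear forms `λ ≠ 0` with integral coefficients the twist by `a = λ(c_x)` has the
property `GoodTwist` for all but finitely many `x ∉ E`.

1. Let `f_{i,0}, f_{i,1}, …` (`i ∈ ι`) be functions which satisfy the hypothesis of Koksma's theorem on
   `[a_i, b_i]` (`Koksma`). Then `c_x = (⌊f_{i,x}(α_i)⌋)_i` is good for almost all `α` with
   `a_i ≤ α_i ≤ b_i`.
2. Let `a_{i,0}, a_{i,1}, …` (`i ∈ ι`) be ANY sequences of real numbers with mutual distances at least
   `δ > 0`, for example any sequences of different integers (`x!`, `2 ^ x`, any enumeration of any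
   infinite set of integers or of primes), and possibly all the same. Then `c_x = (⌊a_{i,x} α_i⌋)_i` is
   good for almost all `α`.
3. Let `k_0, k_1, …` be ANY sequence of different natural numbers, and `ξ_i ≠ 0`. Then
   `c_x = (⌊ξ_i α_i ^ k_x⌋)_i` is good for almost all `α` with all `α_i > 1`.

For instance, for almost all real numbers `α` the conclusion holds for the twists by `⌊x! α⌋`, or by
`⌊α ^ x⌋` if `α > 1`, for `100%` of the `x`. There is no condition of growth or regularity: the sequences
can grow arbitrarily fast, so that among the integers up to `X` the number of the twists considered tends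
to infinity with `X` as slowly as one likes, and the twists `a` are not squarefree in general. There is
one exceptional set for all families of curves.

Proof. A set of integral vectors is pronull if its closure in the product of the `ℤ_p ^ ι` over the
primes `p` which do not divide `M` has Haar measure zero, for all `M`. For a class which is not
persistent there are a positive proportion of primes `p` (Chebotarev's theorem) such that no zero-cycle
on `C a` over `ℚ_p` has this class if `p` divides `a` exactly once (local analysis of helper925, for `a`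
not squarefree by helper676). The set of the vectors `c` for which no such prime divides `λ(c)` exactly
once is pronull (helper676, with the engine of helper24, helper300 and helper765). By the theorem of
Koksma in several variables almost all metric sequences are in such a set only for indices of density
zero (helper24 with the workers of the project KM). There are countably many `(b, g, h)` and `λ`, and a
diagonal argument gives one set `E`.
-/

set_option autoImplicit false

namespace Pool.Agent.Results.MP_bd895b_nt.MetricSequences

open Polynomial MeasureTheory Filter Topology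
open Pool.Agent.Results.MP_bd895b_nt.LocalGlobalComplexOfTwists (Admissible)

/-- The hypothesis of Koksma's theorem: the functions `f n` are twice continuously differentiable, the
derivatives of different ones differ by at least `δ > 0` on `[a, b]`, and the second derivative of
`f m - f n` does not change its sign there. -/
def Koksma (a b : ℝ) (f : ℕ → ℝ → ℝ) : Prop :=
  (∀ n, ContDiff ℝ 2 (f n)) ∧ ∃ δ : ℝ, 0 < δ ∧ ∀ m n : ℕ, m ≠ n →
    (∀ x ∈ Set.Icc a b, δ ≤ |deriv (f m) x - deriv (f n) x|) ∧
    ((∀ x ∈ Set.Icc a b, deriv (deriv (f n)) x ≤ deriv (deriv (f m)) x) ∨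
      ∀ x ∈ Set.Icc a b, deriv (deriv (f m)) x ≤ deriv (deriv (f n)) x)

/-- `E` has natural density zero. -/
def DensityZero (E : Set ℕ) : Prop :=
  Tendsto (fun N : ℕ => (({x : ℕ | x < N ∧ x ∈ E}.ncard : ℕ) : ℝ) / (N : ℝ)) atTop (𝓝 0)

/-- The statements on the local-global complex modulo 2 for the curves `C a`, `m` even, `m ∣ deg h`, and
adelic zero-cycles of all degrees. -/
abbrev GoodTwist {r : ℕ} (b : ℤ) (g : Fin r → ℤ[X]) (h : ℤ[X]) (a : ℤ) : Prop :=
  Pool.Agent.Results.MP_bd895b_nt.RandomOrbits.Good b g h a

/-- The twists by all linear forms of the vectors `c 0, c 1, …`, for ALL families of curves, have the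
property `GoodTwist`, apart from the indices in one set of density zero and finitely many more,
depending on the family and the linear form. -/
def GoodSequence {ι : Type} [Fintype ι] (c : ℕ → ι → ℤ) : Prop :=
  ∃ E : Set ℕ, DensityZero E ∧
    ∀ (r : ℕ) (b : ℤ) (g : Fin r → ℤ[X]) (h : ℤ[X]), Admissible b g h →
      ∀ lam : ι → ℤ, lam ≠ 0 → {x : ℕ | x ∉ E ∧ ¬ GoodTwist b g h (∑ i, lam i * c x i)}.Finite

theorem result (ι : Type) [Fintype ι] :
    (∀ (a b : ι → ℝ) (f : ι → ℕ → ℝ → ℝ), (∀ i, a i < b i) → (∀ i, Koksma (a i) (b i) (f i)) →
      ∀ᵐ α : ι → ℝ, (∀ i, α i ∈ Set.Icc (a i) (b i)) → GoodSequence fun x i => ⌊f i x (α i)⌋) ∧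
    (∀ (a : ι → ℕ → ℝ) (δ : ℝ), 0 < δ → (∀ i m n, m ≠ n → δ ≤ |a i m - a i n|) →
      ∀ᵐ α : ι → ℝ, GoodSequence fun x i => ⌊a i x * α i⌋) ∧
    (∀ (k : ℕ → ℕ) (ξ : ι → ℝ), Function.Injective k → (∀ i, ξ i ≠ 0) →
      ∀ᵐ α : ι → ℝ, (∀ i, 1 < α i) → GoodSequence fun x i => ⌊ξ i * α i ^ k x⌋) := by
  classical
  have hcp := Pool.Agent.N676.OR.countable_poly
  refine Pool.Agent.N18.KM.parts_tw Pool.Agent.N24.KM.main
    (𝔇 := Σ r : ℕ, ℤ × (Fin r → ℤ[X]) × ℤ[X])
    (fun D a => Admissible D.2.1 D.2.2.1 D.2.2.2 → GoodTwist D.2.1 D.2.2.1 D.2.2.2 a) ?_
    GoodSequence ?_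
  · rintro ⟨r, b, g, h⟩
    by_cases hA : Admissible b g h
    · obtain ⟨PP, h1, h2, h3⟩ := Pool.Agent.Results.MP_bd895b_nt.RandomOrbits.good_of hA
      exact ⟨PP, h1, h2, fun a ha _ => h3 a ha⟩
    · exact ⟨∅, Set.finite_empty, fun P hP => absurd hP (Set.notMem_empty _),
        fun a _ hA' => absurd hA' hA⟩
  · intro c E hE hall
    refine ⟨E, hE, fun r b g h hA lam hlam => (hall lam hlam ⟨r, b, g, h⟩).subset ?_⟩
    rintro x ⟨hx, hx'⟩
    exact ⟨hx, fun hgood => hx' (hgood hA)⟩

end Pool.Agent.Results.MP_bd895b_nt.MetricSequences
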