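import Pool.Agent.R482.ST.Mills
import Pool.Agent.N676.OR.Cnt
import Pool.Agent.Results.MP_bd895b_nt.RandomOrbits

/-!
# The local-global complex for zero-cycles modulo 2 on ALL twists of cyclic coverings by integers near
# `α ^ (v_n)`, for almost every `α`

Let `b y ^ 2 = ∏ k, G k (z, w)` be a hyperelliptic curve `D` over `ℚ`, where the `G k` are the
homogenisations of polynomials `g k` with integral coefficients, of even degrees, pairwise coprime, and
let `h` be a nonconstant polynomial with integral coefficients, coprime to the `g k`, `H` its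
homogenisation (`Admissible`). For an integer `a` and an even `m ∣ deg h` let

  `C a : b y ^ 2 = ∏ k, G k (z, w)`, `a x ^ m = H (z, w)`,

a cyclic covering of `D`; for different `a` these coverings are twists of each other. The integer `a` has
the property `Good` (of the starting result `RandomOrbits`) if for all even `m ∣ deg h`, `m > 0`, and every
adelic zero-cycle `(z_v)` on `C a`, of degrees congruent to `d` modulo 2, which is orthogonal to the
quaternion algebras `(G k, e)`, `e` a nonzero integer:

* there are squarefree integers `n k` with `G k (z_v) = n k` in `ℚ_v* / ℚ_v*²` for all `k` and all `v`,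
  and the family `n` is persistent: for every automorphism `σ` of the field of algebraic numbers there
  is a `σ`-stable set of zeros `β` of `h`, of cardinality congruent to `d` modulo 2, with
  `∏ β, g k (β) = n k * y k ^ 2`, `σ (y k) = y k`;
* if the zeros of `h` are one or two rational numbers `α₁`, `α₂`, and `d` is odd or `b ∏ g k (α₁)` is a
  square, there is a zero-cycle `z` of degree `d` over `ℚ` with `G k (z) = G k (z_v)` in
  `ℚ_v* / ℚ_v*²` for all `k` and all `v`: the complex
  `CH₀(C a) / 2 → ∏ v, CH₀(C a over ℚ_v) / 2 → Hom(Br, ℚ/ℤ)` is exact up to the kernels of the `(G k)`.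

**Theorem.** Let `v_n ≥ 1` and `L_n ≥ 1` be real numbers such that the sums of `L_n v_n ^ (-t)` converge
for all `t > 0` (for example `v_n = 3 ^ n` as in Mills's theorem, or `v_n = exp (√n)`, and
`L_n = n ^ A`). For almost every `α > 1` and ALL families `(b, g, h)`, for all but finitely many `n`,
ALL the integers `a ≠ 0` with `||a| - α ^ (v_n)| ≤ L_n` have the property `Good`.

So along these very thin sequences there are only finitely many exceptions for each family of curves, for
one exceptional null set of the `α`; in particular this holds for `a = ± ⌊α ^ (3 ^ n)⌋`, `n ≥ n₀`. The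
integers `a` are not squarefree in general. (Among the integers `|a| ≤ X` only a power of `log log X` are
considered if `v_n = 3 ^ n`; the exceptions are `O(X (log X) ^ (-κ))` squarefree `|a| ≤ X` in the starting
result `LocalGlobalComplexOfTwists`.)

Proof. Let `a = s t ^ 2` with `s` squarefree. The map `x ↦ t x ^ (m / 2)` is a morphism from `C a` to the
double covering `s x ^ 2 = H (z, w)`, and the direct images of orthogonal adelic zero-cycles have the same
values of the `G k`. So exceptional `a` have exceptional square classes `s`. By the starting result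
`R925.ZC` (helper925) the exceptional squarefree `s`, `|s| ≤ X`, are `O(X (log X) ^ (-κ))`, and by the
tool `R482.ST` (helper482) for almost every `α` there are only finitely many `n` for which an integer
`s t ^ 2` with such an `s` is near `α ^ (v_n)`. There are only countably many families.
-/

set_option autoImplicit false
set_option linter.unusedSectionVars false

namespace Pool.Agent.Results.MP_bd895b_nt.TwistsNearPowers

open MeasureTheory Filter Topology Polynomial Pool.Agent.R925.FD Pool.Agent.R925.ZC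
open Pool.Agent.Results.MP_bd895b_nt.LocalGlobalComplexOfTwists (Admissible OfPersistentClass)
open Pool.Agent.Results.MP_bd895b_nt.RandomOrbits (Good)

section push

variable {K : Type} [Fintype K] [DecidableEq K] {b s t : ℤ} {g : K → ℤ[X]} {h : ℤ[X]} {m : ℕ}

/-- the image of a point under `x ↦ t x ^ (m / 2)` -/
def pushPt (hm : Even m) {F : Type} [Field F] (P : Point m b (s * t ^ 2) g h F) :
    Point 2 b s g h F where
  z := P.z
  w := P.w
  x := t * P.x ^ (m / 2)
  y := P.y
  ne := P.ne
  eq₁ := P.eq₁
  eq₂ := by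
    obtain ⟨k, hk⟩ := hm
    have h1 : m / 2 * 2 = m := by omega
    rw [← P.eq₂]
    push_cast
    rw [mul_pow, ← pow_mul, h1]
    ring

/-- the direct image of a zero-cycle -/
def push (hm : Even m) {F : Type} [Field F] (Z : Cycle m b (s * t ^ 2) g h F) :
    Cycle 2 b s g h F where
  r := Z.r
  E := Z.E
  fld := Z.fld
  alg := Z.alg
  fin := Z.fin
  pt i := pushPt hm (Z.pt i)
  c := Z.c

/-- the direct image of an adelic zero-cycle -/
noncomputable def pushA (hm : Even m) (Z : AdelicCycle m b (s * t ^ 2) g h) : AdelicCycle 2 b s g h :=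
  ⟨push hm Z.re, fun p => push hm (Z.pa p)⟩

lemma pushA_parity (hm : Even m) (Z : AdelicCycle m b (s * t ^ 2) g h) {d : ℤ} (hZ : Z.Parity d) :
    (pushA hm Z).Parity d := hZ

lemma pushA_orth (hm : Even m) (Z : AdelicCycle m b (s * t ^ 2) g h) (hZ : Z.Orthogonal) :
    (pushA hm Z).Orthogonal := hZ

lemma pushA_class (hm : Even m) (Z : AdelicCycle m b (s * t ^ 2) g h) {d : ℤ}
    (hZ : OfPersistentClass d (pushA hm Z)) : OfPersistentClass d Z := hZ

end push

theorem result {v L : ℕ → ℝ} (hv : ∀ n, 1 ≤ v n) (hL : ∀ n, 1 ≤ L n)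
    (hs : ∀ t : ℝ, 0 < t → Summable fun n => L n * (v n) ^ (-t)) :
    ∀ᵐ α : ℝ, 1 < α → ∀ (r : ℕ) (b : ℤ) (g : Fin r → ℤ[X]) (h : ℤ[X]), Admissible b g h →
      ∃ n₀ : ℕ, ∀ n : ℕ, n₀ ≤ n → ∀ a : ℤ, a ≠ 0 → |(|a| : ℝ) - α ^ (v n)| ≤ L n →
        Good b g h a := by
  classical
  have hcp := Pool.Agent.N676.OR.countable_poly
  have hone : ∀ D : (Σ r : ℕ, ℤ × (Fin r → ℤ[X]) × ℤ[X]), ∃ Z : Set ℝ, volume Z = 0 ∧
      (Admissible D.2.1 D.2.2.1 D.2.2.2 → ∀ α : ℝ, 1 < α → α ∉ Z → ∃ n₀ : ℕ, ∀ n : ℕ, n₀ ≤ n →
        ∀ a : ℤ, a ≠ 0 → |(|a| : ℝ) - α ^ (v n)| ≤ L n → Good D.2.1 D.2.2.1 D.2.2.2 a) := by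
    rintro ⟨r, b, g, h⟩
    by_cases hA : Admissible b g h
    · obtain ⟨κ, hκ, C, hC⟩ := zc_main hA.b_ne hA.g_ne hA.h_deg hA.deg hA.coprime hA.coprime_h
      obtain ⟨Z, hZ, hw⟩ := Pool.Agent.R482.ST.mills_twists _ hκ 3 hC hv hL (hs κ hκ)
      refine ⟨Z, hZ, fun _ α hα hαZ => ?_⟩
      obtain ⟨n₀, hn⟩ := hw α hα hαZ
      refine ⟨n₀, fun n hn1 a ha had => ?_⟩
      obtain ⟨s, t, h4, h5, rfl⟩ := Pool.Agent.R482.ST.sf_decomp a ha
      have hper : ∀ m : ℕ, Even m → m ∣ h.natDegree → ∀ (d : ℤ)
          (Y : AdelicCycle m b (s * t ^ 2) g h), Y.Parity d → Y.Orthogonal →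
          OfPersistentClass d Y := by
        intro m hm hmh d Y hd hY
        by_contra hno
        have had' : |(|s * t ^ 2| : ℝ) - α ^ (v n)| ≤ L n := by
          push_cast at had
          exact had
        refine hn n hn1 s t h4 h5 had' ⟨2, even_two, ?_, d, pushA hm Y, pushA_parity hm Y hd,
          pushA_orth hm Y hY, fun h6 => hno (pushA_class hm Y h6)⟩
        obtain ⟨k, hk⟩ := hm
        exact (Dvd.intro k (by omega)).trans hmh
      refine ⟨fun m _ hm hmh d Y hd hY => hper m hm hmh d Y hd hY, ?_⟩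
      intro α₁ α₂ hz m hm0 hm hmh d Y hd hY hu
      obtain ⟨n', hn1', hn2, hn3, hn4, hn5⟩ := hper m hm hmh d Y hd hY
      obtain ⟨z, hz1, hz2⟩ := realize (m := m) (a := s * t ^ 2) hm0 hA.b_ne hz
        (fun k => g_ne hA.h_deg hA.coprime_h ((hz α₁).2 (Or.inl rfl)) k)
        (fun k => g_ne hA.h_deg hA.coprime_h ((hz α₂).2 (Or.inr rfl)) k) hu _ hn2 hn3
      exact ⟨z, hz1, fun k => same_aux (hn1' k).ne_zero (hn4 k) (hz2 k).2,
        fun k p => same_aux (hn1' k).ne_zero (hn5 k p) (hz2 k).2⟩
    · exact ⟨∅, measure_empty, fun h => absurd h hA⟩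
  choose Z hZ h using hone
  have hnull : volume (⋃ D, Z D) = 0 := measure_iUnion_null hZ
  filter_upwards [measure_eq_zero_iff_ae_notMem.1 hnull] with α hαZ hα r b g h' hA
  rw [Set.mem_iUnion] at hαZ
  push Not at hαZ
  exact h ⟨r, b, g, h'⟩ hA α hα (hαZ ⟨r, b, g, h'⟩)

end Pool.Agent.Results.MP_bd895b_nt.TwistsNearPowers
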